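import Pool.Agent.N869.GK.D.Stm

/-!
# Extension of a singular subgroup to a maximal one
-/

set_option autoImplicit false
set_option linter.unusedVariables false
set_option linter.unusedSectionVars false

namespace Pool.Agent.N803.GK.EXT

open Pool.Agent.N869.GK

variable {r : ℕ}

theorem two0 : (2 : ZMod 2) = 0 := by decide

theorem dot_add_left (x x' y : Gr r) : dot (x + x') y = dot x y + dot x' y := by
  unfold dot
  rw [← Finset.sum_add_distrib]
  exact Finset.sum_congr rfl fun i _ => by simp [add_mul]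

theorem dot_add_right (x y y' : Gr r) : dot x (y + y') = dot x y + dot x y' := by
  unfold dot
  rw [← Finset.sum_add_distrib]
  exact Finset.sum_congr rfl fun i _ => by simp [mul_add]

theorem dot_smul_left (c : ZMod 2) (x y : Gr r) : dot (c • x) y = c * dot x y := by
  unfold dot
  rw [Finset.mul_sum]
  exact Finset.sum_congr rfl fun i _ => by simp [mul_assoc]

theorem dot_smul_right (c : ZMod 2) (x y : Gr r) : dot x (c • y) = c * dot x y := by
  unfold dot
  rw [Finset.mul_sum]
  exact Finset.sum_congr rfl fun i _ => by simp [mul_left_comm]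

theorem dot_zero_left (y : Gr r) : dot 0 y = 0 := by
  unfold dot
  simp

theorem dot_zero_right (x : Gr r) : dot x 0 = 0 := by
  unfold dot
  simp

theorem dot_single (i : Fin r) (y : Gr r) : dot (Pi.single i 1) y = y i := by
  unfold dot
  rw [Finset.sum_eq_single i]
  · simp
  · intro b _ hb
    simp [Pi.single_eq_of_ne hb]
  · intro h
    exact absurd (Finset.mem_univ _) h

theorem dot_single' (i : Fin r) (x : Gr r) : dot x (Pi.single i 1) = x i := by
  unfold dot
  rw [Finset.sum_eq_single i]
  · simp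
  · intro b _ hb
    simp [Pi.single_eq_of_ne hb]
  · intro h
    exact absurd (Finset.mem_univ _) h

/-- the expanded form -/
def fB (D : Par r) (X Y : Hr r) : ZMod 2 :=
  dot (X.1 0) (Y.2 1) + dot (Y.1 0) (X.2 1) + dot (X.1 1) (Y.2 0) + dot (Y.1 1) (X.2 0) +
    dot D.em (X.2 0) * dot D.em (Y.2 1) + dot D.em (Y.2 0) * dot D.em (X.2 1)

theorem bS_eq (D : Par r) (X Y : Hr r) : bS D X Y = fB D X Y := by
  unfold bS qS fB
  simp only [Prod.fst_add, Prod.snd_add, Pi.add_apply, dot_add_left, dot_add_right]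
  linear_combination (dot (X.1 0) (X.2 1) + dot (X.1 1) (X.2 0) +
    dot D.em (X.2 0) * dot D.em (X.2 1) + dot D.ll (X.2 0) + dot D.ll (X.2 1) +
    dot D.em (X.2 1) + dot (Y.1 0) (Y.2 1) + dot (Y.1 1) (Y.2 0) +
    dot D.em (Y.2 0) * dot D.em (Y.2 1) + dot D.ll (Y.2 0) + dot D.ll (Y.2 1) +
    dot D.em (Y.2 1)) * two0

/-- the bilinear form -/
noncomputable def BB (D : Par r) : LinearMap.BilinForm (ZMod 2) (Hr r) :=
  LinearMap.mk₂ (ZMod 2) (fB D)
    (by
      intro X X' Y
      simp only [fB, Prod.fst_add, Prod.snd_add, Pi.add_apply, dot_add_left, dot_add_right]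
      ring)
    (by
      intro c X Y
      simp only [fB, Prod.smul_fst, Prod.smul_snd, Pi.smul_apply, dot_smul_left, dot_smul_right,
        smul_eq_mul]
      ring)
    (by
      intro X Y Y'
      simp only [fB, Prod.fst_add, Prod.snd_add, Pi.add_apply, dot_add_left, dot_add_right]
      ring)
    (by
      intro c X Y
      simp only [fB, Prod.smul_fst, Prod.smul_snd, Pi.smul_apply, dot_smul_left, dot_smul_right,
        smul_eq_mul]
      ring)

theorem BB_apply (D : Par r) (X Y : Hr r) : BB D X Y = bS D X Y := by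
  rw [bS_eq]
  rfl

theorem bS_comm (D : Par r) (X Y : Hr r) : bS D X Y = bS D Y X := by
  unfold bS
  rw [add_comm X Y]
  ring

theorem qS_add (D : Par r) (X Y : Hr r) : qS D (X + Y) = qS D X + qS D Y + bS D X Y := by
  unfold bS
  linear_combination (-(qS D X) - qS D Y) * two0

theorem BB_refl (D : Par r) : (BB D).IsRefl := by
  intro X Y h
  rw [BB_apply] at h ⊢
  rw [bS_comm, h]

/-- the classes of units -/
def GG (r : ℕ) : Submodule (ZMod 2) (Hr r) := LinearMap.ker (LinearMap.snd (ZMod 2) _ _)

theorem mem_GG (X : Hr r) : X ∈ GG r ↔ X.2 = 0 := by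
  unfold GG
  rw [LinearMap.mem_ker]
  rfl

theorem GG_perp (D : Par r) (Y : Hr r) (h : ∀ X ∈ GG r, bS D X Y = 0) : Y ∈ GG r := by
  rw [mem_GG]
  funext c i
  have e : ∀ s : Fin 2 → Gr r, dot (s 0) (Y.2 1) + dot (s 1) (Y.2 0) = 0 := by
    intro s
    have h1 := h (s, 0) (by rw [mem_GG])
    rw [bS_eq] at h1
    unfold fB at h1
    simpa [dot_zero_right] using h1
  fin_cases c
  · have h1 := e ![0, Pi.single i 1]
    simpa [dot_zero_left, dot_single] using h1
  · have h1 := e ![Pi.single i 1, 0]
    simpa [dot_zero_left, dot_single] using h1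

theorem BB_sep (D : Par r) (Y : Hr r) (h : ∀ X, bS D X Y = 0) : Y = 0 := by
  have h2 : Y.2 = 0 := (mem_GG Y).1 (GG_perp D Y fun X _ => h X)
  have e : ∀ t : Fin 2 → Gr r, dot (Y.1 0) (t 1) + dot (Y.1 1) (t 0) = 0 := by
    intro t
    have h1 := h (0, t)
    rw [bS_eq] at h1
    unfold fB at h1
    simpa [dot_zero_right, dot_zero_left, h2] using h1
  have h1 : Y.1 = 0 := by
    funext c i
    fin_cases c
    · have h1 := e ![0, Pi.single i 1]
      simpa [dot_zero_right, dot_single'] using h1
    · have h1 := e ![Pi.single i 1, 0]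
      simpa [dot_zero_right, dot_single'] using h1
  exact Prod.ext h1 h2

theorem BB_nd (D : Par r) : (BB D).Nondegenerate := by
  constructor
  · intro X hX
    apply BB_sep D
    intro Y
    rw [bS_comm, ← BB_apply]
    exact hX Y
  · intro X hX
    apply BB_sep D
    intro Y
    rw [← BB_apply]
    exact hX Y

theorem mem_orth (D : Par r) (S : Submodule (ZMod 2) (Hr r)) (Y : Hr r) :
    Y ∈ (BB D).orthogonal S ↔ ∀ X ∈ S, bS D X Y = 0 := by
  constructor
  · intro h X hX
    rw [← BB_apply]
    exact h X hX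
  · intro h X hX
    show BB D X Y = 0
    rw [BB_apply]
    exact h X hX

theorem orth_orth (D : Par r) (S : Submodule (ZMod 2) (Hr r)) :
    (BB D).orthogonal ((BB D).orthogonal S) = S :=
  LinearMap.BilinForm.orthogonal_orthogonal (BB_nd D) (BB_refl D) S

theorem step (D : Par r) (S : Submodule (ZMod 2) (Hr r)) (hS : ∀ X ∈ S, qS D X = 0)
    (Y : Hr r) (hY : ∀ X ∈ S, bS D X Y = 0) (hYS : Y ∉ S) :
    ∃ x : Hr r, (∀ X ∈ S, bS D X x = 0) ∧ qS D x = 0 ∧ x ∉ S ⊔ GG r := by
  have hSS : ∀ X ∈ S, ∀ X' ∈ S, bS D X X' = 0 := by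
    intro X hX X' hX'
    unfold bS
    rw [hS _ (S.add_mem hX hX'), hS X hX, hS X' hX']
    rfl
  -- not contained in S + G
  have h1 : ∃ y, (∀ X ∈ S, bS D X y = 0) ∧ y ∉ S ⊔ GG r := by
    by_contra hcon
    push Not at hcon
    apply hYS
    obtain ⟨w, hw, g, hg, hwg⟩ := Submodule.mem_sup.1 (hcon Y hY)
    have h2 : g ∈ S := by
      rw [← orth_orth D S, mem_orth]
      intro X hX
      rw [mem_orth] at hX
      obtain ⟨w', hw', g', hg', hwg'⟩ := Submodule.mem_sup.1 (hcon X hX)
      have h3 : BB D X g = 0 := by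
        have hgG : BB D g' g = 0 := by
          rw [BB_apply, bS_eq]
          unfold fB
          rw [(mem_GG g).1 hg, (mem_GG g').1 hg']
          simp [dot_zero_right]
        have hwg2 : BB D w' g = 0 := by
          have e1 : g = Y - w := by rw [← hwg]; abel
          rw [e1, map_sub, BB_apply, BB_apply, hY w' hw', hSS w' hw' w hw, sub_zero]
        rw [← hwg', map_add, LinearMap.add_apply, hwg2, hgG, add_zero]
      rw [← BB_apply]
      exact h3
    rw [← hwg]
    exact S.add_mem hw h2
  obtain ⟨y, hy, hyn⟩ := h1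
  by_cases hq : qS D y = 0
  · exact ⟨y, hy, hq, hyn⟩
  · have hq1 : qS D y = 1 := by
      generalize qS D y = z at hq ⊢
      revert hq
      revert z
      decide
    have h2 : ∃ g ∈ (BB D).orthogonal (S ⊔ GG r), bS D g y ≠ 0 := by
      by_contra hcon
      push Not at hcon
      apply hyn
      rw [← orth_orth D (S ⊔ GG r), mem_orth]
      exact hcon
    obtain ⟨g, hg, hgy⟩ := h2
    rw [mem_orth] at hg
    have hgG : g ∈ GG r := GG_perp D g fun X hX => hg X (Submodule.mem_sup_right hX)
    have hgy1 : bS D g y = 1 := by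
      generalize bS D g y = z at hgy ⊢
      revert hgy
      revert z
      decide
    have hqg : qS D g = 0 := by
      unfold qS
      rw [(mem_GG g).1 hgG]
      simp [dot_zero_right]
    refine ⟨g + y, ?_, ?_, ?_⟩
    · intro X hX
      rw [← BB_apply, map_add, BB_apply, BB_apply, hg X (Submodule.mem_sup_left hX), hy X hX,
        add_zero]
    · rw [qS_add, hqg, hq1, hgy1]
      decide
    · intro hcon
      apply hyn
      have h3 := (S ⊔ GG r).sub_mem hcon (Submodule.mem_sup_right hgG)
      rwa [add_sub_cancel_left] at h3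

end Pool.Agent.N803.GK.EXT

namespace Pool.Agent.N803.GK

open Pool.Agent.N869.GK Pool.Agent.N803.GK.EXT

theorem t_EXT : Pool.Agent.N869.GK.D.S_EXT := by
  intro r D hD
  set P : Set (Submodule (ZMod 2) (Hr r)) :=
    {S | (∀ X ∈ D.W, X ∈ S) ∧ (∀ X ∈ S, qS D X = 0) ∧
      ∀ s : Fin 2 → Gr r, ((s, 0) : Hr r) ∈ S → ((s, 0) : Hr r) ∈ D.W} with hP
  have : Finite (Submodule (ZMod 2) (Hr r)) := by
    apply Finite.of_injective (fun S : Submodule (ZMod 2) (Hr r) => (S : Set (Hr r)))
    exact SetLike.coe_injective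
  have hne : P.Nonempty :=
    ⟨AddSubgroup.toZModSubmodule 2 D.W, fun X hX => hX, fun X hX => hD X hX, fun s hs => hs⟩
  obtain ⟨S, hSP, hSmax⟩ := (Set.toFinite P).exists_maximal hne
  obtain ⟨h1, h2, h3⟩ := hSP
  refine ⟨S.toAddSubgroup, fun X hX => h1 X hX, fun X hX => h2 X hX, ?_, ?_⟩
  · intro Y hY
    by_contra hYS
    obtain ⟨x, hx1, hx2, hx3⟩ := step D S h2 Y (fun X hX => hY X hX) hYS
    have hz : ∀ c : ZMod 2, c = 0 ∨ c = 1 := by decide
    have hS1 : S ⊔ Submodule.span (ZMod 2) {x} ∈ P := by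
      refine ⟨fun X hX => Submodule.mem_sup_left (h1 X hX), ?_, ?_⟩
      · intro X hX
        obtain ⟨w, hw, z, hz', hwz⟩ := Submodule.mem_sup.1 hX
        obtain ⟨c, rfl⟩ := Submodule.mem_span_singleton.1 hz'
        rw [← hwz]
        rcases hz c with hc | hc
        · rw [hc, zero_smul, add_zero]
          exact h2 w hw
        · rw [hc, one_smul, qS_add, h2 w hw, hx2, hx1 w hw]
          rfl
      · intro s hs
        obtain ⟨w, hw, z, hz', hwz⟩ := Submodule.mem_sup.1 hs
        obtain ⟨c, rfl⟩ := Submodule.mem_span_singleton.1 hz'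
        rcases hz c with hc | hc
        · rw [hc, zero_smul, add_zero] at hwz
          apply h3
          rw [← hwz]
          exact hw
        · exfalso
          rw [hc, one_smul] at hwz
          apply hx3
          have e1 : x = -w + (s, 0) := by
            rw [← hwz]
            abel
          rw [e1]
          exact Submodule.add_mem_sup (S.neg_mem hw) ((mem_GG _).2 rfl)
    have h4 := hSmax hS1 le_sup_left
    apply hx3
    exact Submodule.mem_sup_left (h4 (Submodule.mem_sup_right
      (Submodule.mem_span_singleton_self x)))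
  · intro s
    exact ⟨fun h => h3 s h, fun h => h1 _ h⟩

end Pool.Agent.N803.GK
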