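import Pool.Agent.N869.GK.D.Stm
import Pool.Agent.W410.FK.FINH
import Pool.Agent.Z864.SX.SelH

/-!
# The two descriptions of the 2-Selmer group
-/

set_option autoImplicit false
set_option linter.unusedVariables false

namespace Pool.Agent.N803.GK.GR

open Pool.Agent.TH841.SH (LocC SelG selG_le)
open Pool.Agent.W307.SE
open Pool.Agent.W402.FK (coef dist roots cub)
open Pool.Agent.Z864.SX (sqf_eq sq_of_loc locC_of)

/-- the family of squarefree integers is determined by the values at two roots -/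
theorem le_selG {A B e1 e2 e3 : ℤ}
    (h : ∀ x : ℤ, x ^ 3 + A * x + B = (x - e1) * (x - e2) * (x - e3))
    (hG : (SelG e1 e2 e3).Finite) : (SelR A B).ncard ≤ (SelG e1 e2 e3).ncard := by
  apply Set.ncard_le_ncard_of_injOn (fun d : ℤ → ℤ => (d e1, d e2)) _ _ hG
  · rintro d ⟨hd1, hd2, hdR, hdp⟩
    exact ⟨hd1 e1, hd1 e2, (locC_of h hdR).1, fun p _ => (locC_of h (hdp p)).1⟩
  · rintro d hd d' hd' hdd
    have k1 : d e1 = d' e1 := congrArg Prod.fst hdd
    have k2 : d e2 = d' e2 := congrArg Prod.snd hdd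
    have hsq : ∀ d ∈ SelR A B, IsSquare ((d e1 * d e2 * d e3 : ℤ) : ℚ) := by
      intro d hd
      refine sq_of_loc ?_ (locC_of h hd.2.2.1).2 (fun p _ => (locC_of h (hd.2.2.2 p)).2)
      exact mul_ne_zero (mul_ne_zero (hd.1 e1).ne_zero (hd.1 e2).ne_zero) (hd.1 e3).ne_zero
    have k3 : d e3 = d' e3 := by
      apply sqf_eq (hd.1 e3) (hd'.1 e3)
      obtain ⟨m, hm⟩ := hsq d hd
      obtain ⟨m', hm'⟩ := hsq d' hd'
      rw [← k1, ← k2] at hm'
      push_cast at hm hm'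
      have n1 : ((d e1 : ℤ) : ℚ) ≠ 0 := by exact_mod_cast (hd.1 e1).ne_zero
      have n2 : ((d e2 : ℤ) : ℚ) ≠ 0 := by exact_mod_cast (hd.1 e2).ne_zero
      refine ⟨m * m' / ((d e1 : ℚ) * d e2), ?_⟩
      rw [div_mul_div_comm, eq_div_iff (by positivity)]
      calc ((d e3 : ℤ) : ℚ) * (d' e3 : ℤ) * ((d e1 : ℚ) * d e2 * ((d e1 : ℚ) * d e2))
          = ((d e1 : ℚ) * d e2 * d e3) * ((d e1 : ℚ) * d e2 * d' e3) := by ring
        _ = m * m * (m' * m') := by rw [hm, hm']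
        _ = _ := by ring
    funext e
    by_cases he : e ^ 3 + A * e + B = 0
    · rcases roots A B e1 e2 e3 h e he with rfl | rfl | rfl
      · exact k1
      · exact k2
      · exact k3
    · rw [hd.2.1 e he, hd'.2.1 e he]

theorem finR {A B e1 e2 e3 : ℤ} (hD : 4 * A ^ 3 + 27 * B ^ 2 ≠ 0)
    (h : ∀ x : ℤ, x ^ 3 + A * x + B = (x - e1) * (x - e2) * (x - e3)) : (SelR A B).Finite := by
  obtain ⟨h12, h13, h23⟩ := dist A B e1 e2 e3 hD h
  have hf : (Sel (e2 - e1) (e3 - e1)).Finite :=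
    sel_fin Pool.Agent.W410.FK.seld (sub_ne_zero.2 h12.symm) (sub_ne_zero.2 h13.symm)
      (fun h' => h23 (by linarith))
  exact (Pool.Agent.W410.FK.selc A B e1 e2 e3 (e2 - e1) (e3 - e1) 1 hD h one_ne_zero
    (by push_cast; ring) (by push_cast; ring) hf).1

end Pool.Agent.N803.GK.GR

namespace Pool.Agent.N803.GK

open Pool.Agent.N803.GK.GR

theorem t_GR : Pool.Agent.N869.GK.D.S_GR := by
  intro A B e1 e2 e3 hD h
  have hR := finR hD h
  obtain ⟨h1, h2⟩ := Pool.Agent.TH841.SH.selG_le hD h hR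
  exact ⟨hR, h1, le_antisymm h2 (le_selG h h1)⟩

end Pool.Agent.N803.GK
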