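import Pool.Agent.N869.GK.Stm
import Pool.Agent.N148.GB.HAL

/-!
# GK-HALG: the logarithmic density for a quadratic character, modulus `M`

Port of `Pool/Agent/N148/GB/HAL.lean` (helper148), itself after files of helper897, helper413 and
helper475. The characters are indexed by `0` (modulo 4), `1` (the Jacobi symbol modulo the product
of the primes in `W`), `2` (modulo 8) and the odd prime divisors of `M`.
-/

set_option autoImplicit false
set_option linter.unusedVariables false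

open scoped Classical

namespace Pool.Agent.N803.GK

open Finset
open Pool.Agent.N869.GK
open Pool.Agent.N916.GB (Po)
open Pool.Agent.N973.ND (uu)
open Pool.Agent.Y475.CQ (tsum_le zeta_le part_le sum_zero pow_small main_le)
open Pool.Agent.Y703.CQ (nr sg)
open Pool.Agent.N148.GB (c0 c8 cJ c0_mod c8_mod cJ_mod leg)

/-- the characters; `N` is the product of the primes in `W` -/
noncomputable def dc (N : ℕ) (i : ℕ) : ℕ →* ℝ :=
  if i = 0 then c0 else if i = 1 then cJ N else if i = 2 then c8 else cJ i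

theorem c0_val (n : ℕ) : c0 n = 0 ∨ c0 n = 1 ∨ c0 n = -1 := by
  show ((ZMod.χ₄ (n : ZMod 4) : ℤ) : ℝ) = 0 ∨ _ = 1 ∨ _ = -1
  have : ∀ z : ZMod 4, ZMod.χ₄ z = 0 ∨ ZMod.χ₄ z = 1 ∨ ZMod.χ₄ z = -1 := by decide
  rcases this (n : ZMod 4) with h | h | h
  · left; rw [h]; simp
  · right; left; show ((ZMod.χ₄ (n : ZMod 4) : ℤ) : ℝ) = 1; rw [h]; simp
  · right; right; show ((ZMod.χ₄ (n : ZMod 4) : ℤ) : ℝ) = -1; rw [h]; simp

theorem c8_val (n : ℕ) : c8 n = 0 ∨ c8 n = 1 ∨ c8 n = -1 := by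
  show ((ZMod.χ₈ (n : ZMod 8) : ℤ) : ℝ) = 0 ∨ _ = 1 ∨ _ = -1
  have : ∀ z : ZMod 8, ZMod.χ₈ z = 0 ∨ ZMod.χ₈ z = 1 ∨ ZMod.χ₈ z = -1 := by decide
  rcases this (n : ZMod 8) with h | h | h
  · left; rw [h]; simp
  · right; left; show ((ZMod.χ₈ (n : ZMod 8) : ℤ) : ℝ) = 1; rw [h]; simp
  · right; right; show ((ZMod.χ₈ (n : ZMod 8) : ℤ) : ℝ) = -1; rw [h]; simp

theorem cJ_val (M n : ℕ) : cJ M n = 0 ∨ cJ M n = 1 ∨ cJ M n = -1 := by
  rcases jacobiSym.trichotomy (n : ℤ) M with h | h | h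
  · left; show ((jacobiSym (n : ℤ) M : ℤ) : ℝ) = 0; rw [h]; simp
  · right; left; show ((jacobiSym (n : ℤ) M : ℤ) : ℝ) = 1; rw [h]; simp
  · right; right; show ((jacobiSym (n : ℤ) M : ℤ) : ℝ) = -1; rw [h]; simp

theorem dc_val (N i n : ℕ) : dc N i n = 0 ∨ dc N i n = 1 ∨ dc N i n = -1 := by
  unfold dc
  split_ifs
  · exact c0_val n
  · exact cJ_val N n
  · exact c8_val n
  · exact cJ_val i n

/-- the set of indices -/
noncomputable def UU (M : ℕ) : Finset ℕ := insert 0 (insert 1 M.primeFactors)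

theorem UU_card (M : ℕ) : (UU M).card = M.primeFactors.card + 2 := by
  have h1 : (1 : ℕ) ∉ M.primeFactors := fun h => (Nat.prime_of_mem_primeFactors h).ne_one rfl
  have h0 : (0 : ℕ) ∉ insert 1 M.primeFactors := by
    rw [mem_insert, not_or]
    exact ⟨by norm_num, fun h => (Nat.prime_of_mem_primeFactors h).ne_zero rfl⟩
  rw [UU, card_insert_of_notMem h0, card_insert_of_notMem h1]

/-- congruent modulo the period -/
theorem dc_mod (M N : ℕ) (h8 : 8 ∣ M) (i : ℕ) (hi : i ∈ UU M) (a b : ℕ) (h : a ≡ b [MOD M])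
    (hN : i = 1 → a ≡ b [MOD N]) : dc N i a = dc N i b := by
  unfold dc
  split_ifs with h0 h1 h2
  · exact c0_mod a b (h.of_dvd (Dvd.dvd.trans (by norm_num) h8))
  · exact cJ_mod N a b (hN h1)
  · exact c8_mod a b (h.of_dvd h8)
  · have : i ∣ M := by
      rw [UU, mem_insert, mem_insert] at hi
      rcases hi with hi | hi | hi
      · exact absurd hi h0
      · exact absurd hi h1
      · exact Nat.dvd_of_mem_primeFactors hi
    exact cJ_mod i a b (h.of_dvd this)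

theorem pd_mod (M N : ℕ) (h8 : 8 ∣ M) (V : Finset ℕ) (hV : V ⊆ UU M) (a b : ℕ)
    (h : a ≡ b [MOD M]) (hN : 1 ∈ V → a ≡ b [MOD N]) :
    (∏ i ∈ V, dc N i) a = (∏ i ∈ V, dc N i) b := by
  rw [MonoidHom.finsetProd_apply, MonoidHom.finsetProd_apply]
  exact prod_congr rfl fun i hi => dc_mod M N h8 i (hV hi) a b h fun h1 => hN (h1 ▸ hi)

theorem abs_pd (N : ℕ) (V : Finset ℕ) (n : ℕ) : |(∏ i ∈ V, dc N i) n| ≤ 1 := by
  rw [MonoidHom.finsetProd_apply, abs_prod]
  refine prod_le_one (fun _ _ => abs_nonneg _) fun i hi => ?_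
  rcases dc_val N i n with h | h | h <;> rw [h] <;> norm_num

/-- the product is `-1` if one character is `-1` and the others are one -/
theorem prod_neg (N : ℕ) (V : Finset ℕ) (j : ℕ) (hj : j ∈ V) (k : ℕ)
    (h1 : dc N j k = -1) (h2 : ∀ i ∈ V, i ≠ j → dc N i k = 1) : (∏ i ∈ V, dc N i) k = -1 := by
  rw [MonoidHom.finsetProd_apply, prod_eq_single_of_mem j hj h2, h1]

/-- a nonresidue modulo `v` congruent to one modulo `Q` -/
theorem nonres (v : ℕ) (hv : Po v) (Q : ℕ) (hcop : Nat.Coprime v Q) :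
    ∃ k : ℕ, k ≡ 1 [MOD Q] ∧ Nat.Coprime k v ∧ jacobiSym (k : ℤ) v = -1 := by
  have hvp := hv.1
  have hvf : Fact v.Prime := ⟨hvp⟩
  obtain ⟨g, hg⟩ := FiniteField.exists_nonsquare (F := ZMod v) (by
    rw [ZMod.ringChar_zmod_n]; exact hv.2)
  obtain ⟨k, hk1, hk2⟩ := Nat.chineseRemainder hcop g.val 1
  have hkv : ((k : ℕ) : ZMod v) = g := by
    rw [(ZMod.natCast_eq_natCast_iff k g.val v).2 hk1, ZMod.natCast_zmod_val]
  refine ⟨k, hk2, ?_, ?_⟩
  · rw [Nat.coprime_comm, Nat.Prime.coprime_iff_not_dvd hvp]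
    intro h
    rw [← ZMod.natCast_eq_zero_iff, hkv] at h
    exact hg (h ▸ IsSquare.zero)
  · rw [leg, legendreSym.eq_neg_one_iff, Int.cast_natCast, hkv]
    exact hg

theorem cJ_one_of (l k : ℕ) (h : k ≡ 1 [MOD l]) : cJ l k = 1 := by
  rw [cJ_mod l k 1 h, map_one]

theorem cop_of_mod {k Q : ℕ} (h : k ≡ 1 [MOD Q]) : Nat.Coprime k Q := by
  have := h.gcd_eq
  rw [Nat.gcd_one_left] at this
  exact this

/-- coprime to `M` -/
theorem cop_M {k M : ℕ} (hM : 0 < M) (h8 : Nat.Coprime k 8)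
    (h : ∀ l ∈ M.primeFactors.erase 2, Nat.Coprime k l) : Nat.Coprime k M := by
  by_contra hcon
  rw [Nat.Prime.not_coprime_iff_dvd] at hcon
  obtain ⟨q, hq, hqk, hqM⟩ := hcon
  by_cases h2 : q = 2
  · subst h2
    have : (2 : ℕ) ∣ 1 := by
      rw [← h8]
      exact Nat.dvd_gcd hqk (by norm_num)
    omega
  · have hmem : q ∈ M.primeFactors.erase 2 :=
      mem_erase.2 ⟨h2, Nat.mem_primeFactors.2 ⟨hq, hqM, hM.ne'⟩⟩
    have h3 := h q hmem
    have : q ∣ 1 := by
      rw [← h3]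
      exact Nat.dvd_gcd hqk dvd_rfl
    exact hq.one_lt.ne' (Nat.dvd_one.1 this)

theorem cop8_prod (O : Finset ℕ) (hO : ∀ l ∈ O, Po l) : Nat.Coprime 8 (∏ l ∈ O, l) := by
  rw [Nat.coprime_prod_right_iff]
  intro l hl
  have h1 := hO l hl
  have h2 : Nat.Coprime 2 l := (Nat.coprime_primes Nat.prime_two h1.1).2 (Ne.symm h1.2)
  have : Nat.Coprime (2 ^ 3) l := Nat.Coprime.pow_left 3 h2
  simpa using this

/-- the value `-1` of the products without the last character -/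
theorem small_V (M N : ℕ) (hM : 0 < M) (h8 : 8 ∣ M) (V : Finset ℕ) (hVU : V ⊆ UU M)
    (hV : V.Nonempty) (h1 : 1 ∉ V) : ∃ k, Nat.Coprime k M ∧ (∏ i ∈ V, dc N i) k = -1 := by
  set O := M.primeFactors.erase 2 with hO
  have hOp : ∀ l ∈ O, Po l := fun l hl =>
    ⟨Nat.prime_of_mem_primeFactors (mem_of_mem_erase hl), (mem_erase.1 hl).1⟩
  have hmem : ∀ i ∈ V, i = 0 ∨ i = 2 ∨ i ∈ O := by
    intro i hi
    have h2 := hVU hi
    rw [UU, mem_insert, mem_insert] at h2
    rcases h2 with h2 | h2 | h2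
    · exact Or.inl h2
    · exact absurd (h2 ▸ hi) h1
    · by_cases h3 : i = 2
      · exact Or.inr (Or.inl h3)
      · exact Or.inr (Or.inr (mem_erase.2 ⟨h3, h2⟩))
  have hO0 : ∀ i ∈ O, i ≠ 0 ∧ i ≠ 1 ∧ i ≠ 2 := fun i hi =>
    ⟨(hOp i hi).1.ne_zero, (hOp i hi).1.ne_one, (hOp i hi).2⟩
  have d0 : ∀ k, dc N 0 k = c0 k := fun k => by simp [dc]
  have d2 : ∀ k, dc N 2 k = c8 k := fun k => by simp [dc]
  have dO : ∀ i ∈ O, ∀ k, dc N i k = cJ i k := fun i hi k => by
    obtain ⟨e0, e1, e2⟩ := hO0 i hi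
    simp [dc, e0, e1, e2]
  obtain ⟨j, hj⟩ := hV
  rcases hmem j hj with rfl | rfl | hjO
  · obtain ⟨k, hk1, hk2⟩ := Nat.chineseRemainder (cop8_prod O hOp) 7 1
    refine ⟨k, cop_M hM ?_ ?_, prod_neg N V 0 hj k ?_ fun i hi hne => ?_⟩
    · have := hk1.gcd_eq
      rw [Nat.Coprime, this]
      norm_num
    · intro l hl
      exact cop_of_mod (hk2.of_dvd (dvd_prod_of_mem (fun l => l) hl))
    · rw [d0, c0_mod k 7 (hk1.of_dvd (by norm_num))]
      show ((ZMod.χ₄ ((7 : ℕ) : ZMod 4) : ℤ) : ℝ) = -1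
      have a1 : ZMod.χ₄ ((7 : ℕ) : ZMod 4) = -1 := by decide
      rw [a1]; simp
    · rcases hmem i hi with h | h | h
      · exact absurd h hne
      · rw [h, d2, c8_mod k 7 hk1]
        show ((ZMod.χ₈ ((7 : ℕ) : ZMod 8) : ℤ) : ℝ) = 1
        have a3 : ZMod.χ₈ ((7 : ℕ) : ZMod 8) = 1 := by decide
        rw [a3]; simp
      · rw [dO i h]
        exact cJ_one_of i k (hk2.of_dvd (dvd_prod_of_mem (fun l => l) h))
  · obtain ⟨k, hk1, hk2⟩ := Nat.chineseRemainder (cop8_prod O hOp) 5 1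
    refine ⟨k, cop_M hM ?_ ?_, prod_neg N V 2 hj k ?_ fun i hi hne => ?_⟩
    · have := hk1.gcd_eq
      rw [Nat.Coprime, this]
      norm_num
    · intro l hl
      exact cop_of_mod (hk2.of_dvd (dvd_prod_of_mem (fun l => l) hl))
    · rw [d2, c8_mod k 5 hk1]
      show ((ZMod.χ₈ ((5 : ℕ) : ZMod 8) : ℤ) : ℝ) = -1
      have a1 : ZMod.χ₈ ((5 : ℕ) : ZMod 8) = -1 := by decide
      rw [a1]; simp
    · rcases hmem i hi with h | h | h
      · rw [h, d0, c0_mod k 5 (hk1.of_dvd (by norm_num))]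
        show ((ZMod.χ₄ ((5 : ℕ) : ZMod 4) : ℤ) : ℝ) = 1
        have a3 : ZMod.χ₄ ((5 : ℕ) : ZMod 4) = 1 := by decide
        rw [a3]; simp
      · exact absurd h hne
      · rw [dO i h]
        exact cJ_one_of i k (hk2.of_dvd (dvd_prod_of_mem (fun l => l) h))
  · have hcop : Nat.Coprime j (8 * ∏ l ∈ O.erase j, l) := by
      refine Nat.Coprime.mul_right ?_ ?_
      · have := cop8_prod {j} (fun l hl => by rw [mem_singleton.1 hl]; exact hOp j hjO)
        rw [prod_singleton] at this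
        exact this.symm
      · rw [Nat.coprime_prod_right_iff]
        intro u hu
        exact (Nat.coprime_primes (hOp j hjO).1 (hOp u (mem_of_mem_erase hu)).1).2
          (ne_of_mem_erase hu).symm
    obtain ⟨k, hk1, hk2, hk3⟩ := nonres j (hOp j hjO) _ hcop
    have hk8 : k ≡ 1 [MOD 8] := hk1.of_dvd (dvd_mul_right _ _)
    have hkl : ∀ l ∈ O, l ≠ j → k ≡ 1 [MOD l] := fun l hl hne =>
      hk1.of_dvd ((dvd_prod_of_mem (fun l => l) (mem_erase.2 ⟨hne, hl⟩)).trans (dvd_mul_left _ _))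
    refine ⟨k, cop_M hM (cop_of_mod hk8) ?_, prod_neg N V j hj k ?_ fun i hi hne => ?_⟩
    · intro l hl
      by_cases hlj : l = j
      · rw [hlj]; exact hk2
      · exact cop_of_mod (hkl l hl hlj)
    · rw [dO j hjO]
      show ((jacobiSym (k : ℤ) j : ℤ) : ℝ) = -1
      rw [hk3]; simp
    · rcases hmem i hi with h | h | h
      · rw [h, d0, c0_mod k 1 (hk8.of_dvd (by norm_num)), map_one]
      · rw [h, d2, c8_mod k 1 hk8, map_one]
      · rw [dO i h]
        exact cJ_one_of i k (hkl i h hne)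

/-- the value `-1` of the products with the last character -/
theorem big_V (M : ℕ) (hM : 0 < M) (h8 : 8 ∣ M) (W : Finset ℕ) (hW : W.Nonempty)
    (hp : ∀ u ∈ W, Po u ∧ ¬ u ∣ M) (V : Finset ℕ) (hVU : V ⊆ UU M) (h1 : 1 ∈ V) :
    ∃ k, Nat.Coprime k (M * ∏ u ∈ W, u) ∧ (∏ i ∈ V, dc (∏ u ∈ W, u) i) k = -1 := by
  obtain ⟨v, hv⟩ := hW
  set Q := ∏ u ∈ W.erase v, u with hQ
  have hN : ∏ u ∈ W, u = v * Q := (mul_prod_erase W (fun u => u) hv).symm
  have hcop : Nat.Coprime v (M * Q) := by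
    refine Nat.Coprime.mul_right ?_ ?_
    · rw [Nat.Prime.coprime_iff_not_dvd (hp v hv).1.1]
      exact (hp v hv).2
    · rw [Nat.coprime_prod_right_iff]
      intro u hu
      exact (Nat.coprime_primes (hp v hv).1.1 (hp u (mem_of_mem_erase hu)).1.1).2
        (ne_of_mem_erase hu).symm
  obtain ⟨k, hk1, hk2, hk3⟩ := nonres v (hp v hv).1 _ hcop
  have hkM : k ≡ 1 [MOD M] := hk1.of_dvd (dvd_mul_right _ _)
  have hkQ : k ≡ 1 [MOD Q] := hk1.of_dvd (dvd_mul_left _ _)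
  have hQ0 : Q ≠ 0 := by
    rw [hQ, prod_ne_zero_iff]
    intro u hu
    exact (hp u (mem_of_mem_erase hu)).1.1.ne_zero
  have : NeZero v := ⟨(hp v hv).1.1.ne_zero⟩
  have : NeZero Q := ⟨hQ0⟩
  refine ⟨k, ?_, prod_neg _ V 1 h1 k ?_ fun i hi hne => ?_⟩
  · rw [hN]
    exact Nat.Coprime.mul_right (cop_of_mod hkM) (Nat.Coprime.mul_right hk2 (cop_of_mod hkQ))
  · have e : dc (∏ u ∈ W, u) 1 k = cJ (∏ u ∈ W, u) k := by simp [dc]
    rw [e]
    show ((jacobiSym (k : ℤ) (∏ u ∈ W, u) : ℤ) : ℝ) = -1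
    have hJQ : jacobiSym (k : ℤ) Q = 1 := by
      have h1 : jacobiSym (k : ℤ) Q = jacobiSym ((1 : ℕ) : ℤ) Q :=
        jacobiSym.mod_left' ((Int.natCast_modEq_iff).2 hkQ)
      rw [h1, Nat.cast_one, jacobiSym.one_left]
    rw [hN, jacobiSym.mul_right, hk3, hJQ]
    simp
  · rw [dc_mod M _ h8 i (hVU hi) k 1 hkM (fun h => absurd h hne), map_one]

/-- the bounds of the L-functions -/
theorem L_le (M : ℕ) (hM : 0 < M) (h8 : 8 ∣ M) (W : Finset ℕ) (hW : W.Nonempty)
    (hp : ∀ u ∈ W, Po u ∧ ¬ u ∣ M) (V : Finset ℕ) (hVU : V ⊆ UU M) (hV : V.Nonempty) (σ : ℝ)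
    (hσ : 1 < σ) :
    ∑' n : ℕ, (∏ i ∈ V, dc (∏ u ∈ W, u) i) n * (n : ℝ) ^ (-σ) ≤
      (3 + Real.log M) * (1 + Real.log ((∏ u ∈ W, u : ℕ) : ℝ)) := by
  set N := ∏ u ∈ W, u with hN
  have hN1 : 1 ≤ N := by
    rw [hN]
    exact prod_pos fun u hu => (hp u hu).1.1.pos
  have hM1 : (1 : ℝ) ≤ M := by exact_mod_cast hM
  have hN1' : (1 : ℝ) ≤ N := by exact_mod_cast hN1
  have lM : 0 ≤ Real.log M := Real.log_nonneg hM1
  have lN : 0 ≤ Real.log (N : ℝ) := Real.log_nonneg hN1'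
  by_cases h1 : 1 ∈ V
  · obtain ⟨k, hk1, hk2⟩ := big_V M hM h8 W hW hp V hVU h1
    rw [← hN] at hk1 hk2
    have hq : 1 ≤ M * N := Nat.mul_pos hM hN1
    have hper : ∀ n, (∏ i ∈ V, dc N i) (M * N + n) = (∏ i ∈ V, dc N i) n := by
      intro n
      refine pd_mod M N h8 V hVU _ _ ?_ fun _ => ?_
      · show (M * N + n) % M = n % M
        rw [Nat.mul_add_mod]
      · show (M * N + n) % N = n % N
        rw [mul_comm M N, Nat.mul_add_mod]
    have hz := sum_zero (∏ i ∈ V, dc N i) (M * N) hq hper k hk1 hk2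
    have h5 := tsum_le (fun n => (∏ i ∈ V, dc N i) n) (M * N) hq (abs_pd N V)
      (part_le _ (M * N) hq (abs_pd N V) hper hz) σ hσ
    refine h5.trans ?_
    rw [Nat.cast_mul, Real.log_mul (by linarith) (by linarith)]
    nlinarith [mul_nonneg lM lN]
  · obtain ⟨k, hk1, hk2⟩ := small_V M N hM h8 V hVU hV h1
    have hper : ∀ n, (∏ i ∈ V, dc N i) (M + n) = (∏ i ∈ V, dc N i) n := by
      intro n
      refine pd_mod M N h8 V hVU _ _ ?_ fun h => absurd h h1
      show (M + n) % M = n % M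
      rw [Nat.add_mod_left]
    have hz := sum_zero (∏ i ∈ V, dc N i) M hM hper k hk1 hk2
    have h5 := tsum_le (fun n => (∏ i ∈ V, dc N i) n) M hM (abs_pd N V)
      (part_le _ M hM (abs_pd N V) hper hz) σ hσ
    refine h5.trans ?_
    nlinarith [mul_nonneg lM lN]

/-- the Jacobi symbol of the product -/
theorem jac_prod (W : Finset ℕ) (hp : ∀ u ∈ W, Po u) (p : ℕ) (h1 : p.Prime) (h4 : p % 4 = 1)
    (hpW : p ∉ W) :
    jacobiSym (p : ℤ) (∏ u ∈ W, u) = if ∑ u ∈ W, nr p u = 0 then 1 else -1 := by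
  have hpf : Fact p.Prime := ⟨h1⟩
  have key : ∀ W' : Finset ℕ, W' ⊆ W →
      jacobiSym (p : ℤ) (∏ u ∈ W', u) = if ∑ u ∈ W', nr p u = 0 then 1 else -1 := by
    intro W'
    induction W' using Finset.induction_on with
    | empty => intro _; simp
    | insert a s ha ih =>
      intro hs'
      have haW : a ∈ W := hs' (mem_insert_self a s)
      have ihs := ih ((subset_insert a s).trans hs')
      have hap := (hp a haW).1
      have ha8 := (hp a haW).2
      have haf : Fact a.Prime := ⟨hap⟩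
      have : NeZero a := ⟨hap.ne_zero⟩
      have : NeZero (∏ u ∈ s, u) := ⟨by
        rw [prod_ne_zero_iff]
        intro u hu
        exact (hp u (hs' (mem_insert_of_mem hu))).1.ne_zero⟩
      rw [prod_insert ha, sum_insert ha, jacobiSym.mul_right, ihs]
      have hodd : Odd a := hap.odd_of_ne_two ha8
      have hrec : jacobiSym (p : ℤ) a = jacobiSym (a : ℤ) p :=
        jacobiSym.quadratic_reciprocity_one_mod_four h4 hodd
      have hne : ((a : ℤ) : ZMod p) ≠ 0 := by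
        intro h0
        rw [Int.cast_natCast, ZMod.natCast_eq_zero_iff] at h0
        have := (Nat.prime_dvd_prime_iff_eq h1 hap).1 h0
        exact hpW (this ▸ haW)
      have hval : jacobiSym (p : ℤ) a = if nr p a = 0 then 1 else -1 := by
        rw [hrec, leg]
        unfold nr
        by_cases hsq : IsSquare (a : ZMod p)
        · rw [if_pos hsq, if_pos rfl]
          exact (legendreSym.eq_one_iff p hne).2 (by rwa [Int.cast_natCast])
        · rw [if_neg hsq, if_neg (by decide)]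
          exact (legendreSym.eq_neg_one_iff p).2 (by rwa [Int.cast_natCast])
      rw [hval]
      have hz : ∀ x y : ZMod 2, (if x = 0 then (1 : ℤ) else -1) * (if y = 0 then 1 else -1) =
          if x + y = 0 then 1 else -1 := by decide
      exact hz _ _
  exact key W Subset.rfl

/-- the symbols of a prime with label zero -/
theorem dc_one {r : ℕ} (M : ℕ) (lb : ℕ → Gr r) (hlb : LabZ M lb) (W : Finset ℕ)
    (hp : ∀ u ∈ W, Po u ∧ ¬ u ∣ M) (p : ℕ) (h1 : p.Prime) (hpM : ¬ p ∣ M) (hl0 : lb p = 0)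
    (hpW : p ∉ W) (hs : ∑ u ∈ W, nr p u = 0) (i : ℕ) (hi : i ∈ UU M) :
    dc (∏ u ∈ W, u) i p = 1 := by
  have hpf : Fact p.Prime := ⟨h1⟩
  obtain ⟨hu, hnr⟩ := (hlb.zero p h1 hpM).1 hl0
  have h2M : (2 : ℕ) ∈ M.primeFactors :=
    Nat.mem_primeFactors.2 ⟨Nat.prime_two, (by norm_num : (2 : ℕ) ∣ 8).trans hlb.eight,
      hlb.pos.ne'⟩
  have hp2 : p ≠ 2 := by
    rintro rfl
    exact hpM (Nat.dvd_of_mem_primeFactors h2M)
  have hodd : p % 2 = 1 := h1.eq_two_or_odd.resolve_left hp2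
  have h4 : p % 4 = 1 := by
    unfold uu at hu
    by_contra h
    have : p % 4 = 3 := by omega
    rw [if_pos this] at hu
    exact one_ne_zero hu
  have h8 : p % 8 = 1 := by
    have h3 := hnr 2 h2M
    unfold nr at h3
    by_cases hsq : IsSquare ((2 : ℕ) : ZMod p)
    · have h5 : IsSquare (2 : ZMod p) := by exact_mod_cast hsq
      have := (ZMod.exists_sq_eq_two_iff hp2).1 h5
      omega
    · rw [if_neg hsq] at h3
      exact absurd h3 one_ne_zero
  unfold dc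
  split_ifs with e0 e1 e2
  · rw [c0_mod p 1 (show p % 4 = 1 % 4 by omega), map_one]
  · show ((jacobiSym (p : ℤ) (∏ u ∈ W, u) : ℤ) : ℝ) = 1
    rw [jac_prod W (fun u hu => (hp u hu).1) p h1 h4 hpW, if_pos hs]
    simp
  · rw [c8_mod p 1 (show p % 8 = 1 % 8 by omega), map_one]
  · have hiM : i ∈ M.primeFactors := by
      rw [UU, mem_insert, mem_insert] at hi
      rcases hi with hi | hi | hi
      · exact absurd hi e0
      · exact absurd hi e1
      · exact hi
    have hip : Po i := ⟨Nat.prime_of_mem_primeFactors hiM, e2⟩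
    have hpi : p ∉ ({i} : Finset ℕ) := by
      rw [mem_singleton]
      rintro rfl
      exact hpM (Nat.dvd_of_mem_primeFactors hiM)
    have := jac_prod {i} (fun u hu => by rw [mem_singleton.1 hu]; exact hip) p h1 h4 hpi
    rw [prod_singleton, sum_singleton, hnr i hiM, if_pos rfl] at this
    show ((jacobiSym (p : ℤ) i : ℤ) : ℝ) = 1
    rw [this]
    simp

theorem t_HALG : S_HALG := by
  intro r M lb hlb
  have hM := hlb.pos
  have hM1 : (1 : ℝ) ≤ M := by exact_mod_cast hM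
  have lM : 0 ≤ Real.log M := Real.log_nonneg hM1
  refine ⟨9 * (3 + Real.log M), by linarith, fun W T hW hp hT => ?_⟩
  set N := ∏ u ∈ W, u with hN
  have lT : 0 < Real.log T := Real.log_pos (by exact_mod_cast (by omega : 1 < T))
  obtain ⟨σ, hσd⟩ : ∃ σ : ℝ, σ = 1 + 1 / Real.log T := ⟨_, rfl⟩
  have hσ : 1 < σ := by
    rw [hσd]
    have : 0 < 1 / Real.log T := by positivity
    linarith
  obtain ⟨P, hPd⟩ : ∃ P : Finset ℕ, P = (range (T + 1)).filter
    (fun p => p.Prime ∧ ¬ p ∣ M ∧ lb p = 0 ∧ p ∉ W ∧ ∑ u ∈ W, nr p u = 0) := ⟨_, rfl⟩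
  have hP : ∀ p ∈ P, p.Prime ∧ ¬ p ∣ M ∧ lb p = 0 ∧ p ∉ W ∧ ∑ u ∈ W, nr p u = 0 := by
    intro p hp'
    rw [hPd, mem_filter] at hp'
    exact hp'.2
  have hmain := main_le (dc N) (UU M) (fun i _ n => dc_val N i n) σ hσ P
    (fun p h => (hP p h).1) (fun i hi p h => by
      obtain ⟨b1, b2, b3, b4, b5⟩ := hP p h
      exact dc_one M lb hlb W hp p b1 b2 b3 b4 b5 i hi)
  -- the product of the values
  have hN1 : 1 ≤ N := by
    rw [hN]
    exact prod_pos fun u hu => (hp u hu).1.1.pos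
  have hN1' : (1 : ℝ) ≤ N := by exact_mod_cast hN1
  have lN : 0 ≤ Real.log (N : ℝ) := Real.log_nonneg hN1'
  have hlog2 := Real.log_two_gt_d9
  have lT2 : Real.log 2 ≤ Real.log T := Real.log_le_log (by norm_num) (by exact_mod_cast hT)
  set A : ℝ := (3 + Real.log M) * (1 + Real.log (N : ℝ)) with hA
  have hA1 : 1 ≤ A := by
    rw [hA]
    nlinarith [mul_nonneg lM lN]
  have hprod : ∏ V ∈ (UU M).powerset, ∑' n : ℕ, (∏ i ∈ V, dc N i) n * (n : ℝ) ^ (-σ) ≤
      3 * Real.log T * A ^ (2 ^ (UU M).card) := by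
    have hempty : (∅ : Finset ℕ) ∈ (UU M).powerset := empty_mem_powerset _
    rw [← mul_prod_erase _ _ hempty]
    have h1 : ∑' n : ℕ, (∏ i ∈ (∅ : Finset ℕ), dc N i) n * (n : ℝ) ^ (-σ) ≤ 3 * Real.log T := by
      have e : ∑' n : ℕ, (∏ i ∈ (∅ : Finset ℕ), dc N i) n * (n : ℝ) ^ (-σ) =
          ∑' n : ℕ, (1 : ℝ) * (n : ℝ) ^ (-σ) := by
        refine tsum_congr fun n => ?_
        rw [prod_empty]
        rfl
      rw [e]
      refine (zeta_le σ hσ).trans ?_
      have e2 : 1 / (σ - 1) = Real.log T := by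
        rw [hσd]
        field_simp
        ring
      rw [e2]
      linarith
    have h2 : ∏ V ∈ ((UU M).powerset.erase ∅), ∑' n : ℕ, (∏ i ∈ V, dc N i) n * (n : ℝ) ^ (-σ) ≤
        A ^ (2 ^ (UU M).card) := by
      have h3 : ∏ V ∈ ((UU M).powerset.erase ∅),
          ∑' n : ℕ, (∏ i ∈ V, dc N i) n * (n : ℝ) ^ (-σ) ≤
          ∏ V ∈ ((UU M).powerset.erase ∅), A := by
        refine prod_le_prod (fun V hV => hmain.2 V (mem_of_mem_erase hV)) fun V hV => ?_
        exact L_le M hM hlb.eight W hW hp V (mem_powerset.1 (mem_of_mem_erase hV))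
          (nonempty_iff_ne_empty.2 (ne_of_mem_erase hV)) σ hσ
      refine h3.trans ?_
      rw [prod_const]
      refine pow_le_pow_right₀ hA1 ?_
      rw [← card_powerset]
      exact card_le_card (erase_subset _ _)
    exact mul_le_mul h1 h2 (prod_nonneg fun V hV => hmain.2 V (mem_of_mem_erase hV))
      (by positivity)
  have hbig := hmain.1.trans hprod
  rw [UU_card] at hbig
  set u := 2 ^ (M.primeFactors.card + 2) with hu
  have hu1 : 1 ≤ u := Nat.one_le_two_pow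
  -- the sum
  have hx : ∀ p ∈ P, 0 < (p : ℝ) ^ (-σ) ∧ (p : ℝ) ^ (-σ) < 1 := fun p h =>
    pow_small p (hP p h).1.two_le σ hσ
  have hsum : ∑ S ∈ HDG M lb W T, (1 : ℝ) / ((∏ p ∈ S, p : ℕ) : ℝ) ≤
      3 * ∏ p ∈ P, (1 - (p : ℝ) ^ (-σ))⁻¹ := by
    have s1 : ∑ S ∈ HDG M lb W T, (1 : ℝ) / ((∏ p ∈ S, p : ℕ) : ℝ) ≤
        ∑ S ∈ P.powerset, 3 * ∏ p ∈ S, (p : ℝ) ^ (-σ) := by
      have hsub : HDG M lb W T ⊆ P.powerset := by
        intro S hS
        unfold HDG at hS
        rw [mem_filter, mem_powerset] at hS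
        rw [mem_powerset]
        intro p hpS
        rw [hPd, mem_filter]
        exact ⟨hS.1 hpS, hS.2.1 p hpS⟩
      refine le_trans (sum_le_sum fun S hS => ?_) (sum_le_sum_of_subset_of_nonneg hsub
        fun S hS _ => ?_)
      · have hSP := hsub hS
        rw [mem_powerset] at hSP
        unfold HDG at hS
        rw [mem_filter] at hS
        have hle := hS.2.2
        have hpos : 0 < ∏ p ∈ S, p := prod_pos fun p h => (hP p (hSP h)).1.pos
        have e : ∏ p ∈ S, (p : ℝ) ^ (-σ) = ((∏ p ∈ S, p : ℕ) : ℝ) ^ (-σ) := by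
          rw [Nat.cast_prod, Real.finsetProd_rpow]
          intro p _
          exact Nat.cast_nonneg p
        rw [e]
        generalize ∏ p ∈ S, p = N at hle hpos ⊢
        have hN : (0 : ℝ) < (N : ℝ) := by exact_mod_cast hpos
        have hNT : (N : ℝ) ≤ (T : ℝ) := by exact_mod_cast hle
        have hN1 : (1 : ℝ) ≤ (N : ℝ) := by exact_mod_cast hpos
        have h2 : (N : ℝ) ^ (σ - 1) ≤ 3 := by
          have a1 : (N : ℝ) ^ (σ - 1) = Real.exp (Real.log N * (σ - 1)) :=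
            Real.rpow_def_of_pos hN _
          have a2 : Real.log N * (σ - 1) ≤ 1 := by
            have a3 : σ - 1 = 1 / Real.log T := by rw [hσd]; ring
            rw [a3, mul_one_div, div_le_one lT]
            exact Real.log_le_log hN hNT
          rw [a1]
          exact (Real.exp_le_exp.2 a2).trans (Real.exp_one_lt_d9.le.trans (by norm_num))
        have h3 : (N : ℝ) ^ (σ - 1) * (N : ℝ) ^ (-σ) = 1 / N := by
          rw [← Real.rpow_add hN]
          have : σ - 1 + -σ = -1 := by ring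
          rw [this, Real.rpow_neg_one, one_div]
        rw [← h3]
        exact mul_le_mul_of_nonneg_right h2 (Real.rpow_nonneg hN.le _)
      · refine mul_nonneg (by norm_num) (prod_nonneg fun p _ => Real.rpow_nonneg (Nat.cast_nonneg _) _)
    refine s1.trans ?_
    rw [← mul_sum, ← prod_one_add]
    refine mul_le_mul_of_nonneg_left (prod_le_prod (fun p h => ?_) fun p h => ?_) (by norm_num)
    · have := (hx p h).1
      positivity
    · obtain ⟨a1, a2⟩ := hx p h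
      rw [← one_div, le_div_iff₀ (by linarith)]
      nlinarith
  generalize ∏ p ∈ P, (1 - (p : ℝ) ^ (-σ))⁻¹ = Q at hbig hsum
  have hH0 : 0 ≤ ∑ S ∈ HDG M lb W T, (1 : ℝ) / ((∏ p ∈ S, p : ℕ) : ℝ) :=
    sum_nonneg fun S _ => by positivity
  generalize ∑ S ∈ HDG M lb W T, (1 : ℝ) / ((∏ p ∈ S, p : ℕ) : ℝ) = H at hsum hH0 ⊢
  have hexp : (1 / 2 ^ (M.primeFactors.card + 2) : ℝ) = 1 / (u : ℝ) := by
    rw [hu]
    push_cast
    rfl
  rw [hexp]
  have hu0 : (0 : ℝ) < u := by exact_mod_cast hu1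
  apply le_of_pow_le_pow_left₀ (n := u) (by omega) (by positivity)
  have e1 : (9 * (3 + Real.log M) * (1 + Real.log (N : ℝ)) * Real.log T ^ (1 / (u : ℝ))) ^ u =
      (9 * A) ^ u * Real.log T := by
    rw [mul_pow, ← Real.rpow_natCast (Real.log T ^ (1 / (u : ℝ))), ← Real.rpow_mul lT.le,
      one_div_mul_cancel hu0.ne', Real.rpow_one, hA]
    congr 2
    ring
  rw [e1]
  calc H ^ u ≤ (3 * Q) ^ u := pow_le_pow_left₀ hH0 hsum u
    _ = 3 ^ u * Q ^ u := by rw [mul_pow]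
    _ ≤ 3 ^ u * (3 * Real.log T * A ^ u) := by
        exact mul_le_mul_of_nonneg_left hbig (by positivity)
    _ = (3 ^ u * 3) * (A ^ u * Real.log T) := by ring
    _ ≤ 9 ^ u * (A ^ u * Real.log T) := by
        apply mul_le_mul_of_nonneg_right _ (by positivity)
        have h9 : (9 : ℝ) ^ u = 3 ^ u * 3 ^ u := by
          rw [← mul_pow]
          norm_num
        rw [h9]
        apply mul_le_mul_of_nonneg_left _ (by positivity)
        calc (3 : ℝ) = 3 ^ 1 := by norm_num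
          _ ≤ 3 ^ u := pow_le_pow_right₀ (by norm_num) hu1
    _ = (9 * A) ^ u * Real.log T := by rw [mul_pow (9 : ℝ) A u]; ring

end Pool.Agent.N803.GK
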